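import Mathlib

set_option autoImplicit false

open Finset

namespace Pool.Agent.Helper70.VC74

variable {V : Type*} [Fintype V] [DecidableEq V]

/-- `a` and `b` are distinct and lie in a common edge of `H`. -/
def Sh (H : Finset (Finset V)) (a b : V) : Prop := a ≠ b ∧ ∃ e ∈ H, a ∈ e ∧ b ∈ e

instance (H : Finset (Finset V)) (a b : V) : Decidable (Sh H a b) := by
  unfold Sh; infer_instance

/-- `H` is 3-uniform and no 7 vertices span four edges. -/
def Sparse (H : Finset (Finset V)) : Prop :=
  (∀ e ∈ H, e.card = 3) ∧ ∀ S : Finset V, S.card = 7 → (H.filter (fun e => e ⊆ S)).card < 4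

variable {H : Finset (Finset V)}

theorem four (hH : Sparse H) (hn : 7 ≤ Fintype.card V) {T : Finset (Finset V)} (hT : T ⊆ H)
    (h4 : 4 ≤ T.card) {W : Finset V} (hW : ∀ e ∈ T, e ⊆ W) (hc : W.card ≤ 7) : False := by
  obtain ⟨S, hWS, hS⟩ := Finset.exists_superset_card_eq hc hn
  have h1 := hH.2 S hS
  have h2 : T ⊆ H.filter (fun e => e ⊆ S) := by
    intro e he
    exact mem_filter.2 ⟨hT he, (hW e he).trans hWS⟩
  have := card_le_card h2
  omega

theorem four' (hH : Sparse H) (hn : 7 ≤ Fintype.card V) {e1 e2 e3 e4 : Finset V}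
    (h1 : e1 ∈ H) (h2 : e2 ∈ H) (h3 : e3 ∈ H) (h4 : e4 ∈ H) (h12 : e1 ≠ e2) (h13 : e1 ≠ e3)
    (h14 : e1 ≠ e4) (h23 : e2 ≠ e3) (h24 : e2 ≠ e4) (h34 : e3 ≠ e4) {W : Finset V}
    (g1 : e1 ⊆ W) (g2 : e2 ⊆ W) (g3 : e3 ⊆ W) (g4 : e4 ⊆ W) (hc : W.card ≤ 7) : False := by
  apply four hH hn (T := {e1, e2, e3, e4}) _ _ (W := W) _ hc
  · intro e he
    simp only [mem_insert, mem_singleton] at he
    rcases he with rfl | rfl | rfl | rfl <;> assumption
  · rw [card_insert_of_notMem, card_insert_of_notMem, card_insert_of_notMem, card_singleton]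
    · simpa using h34
    · simp [h23, h24]
    · simp [h12, h13, h14]
  · intro e he
    simp only [mem_insert, mem_singleton] at he
    rcases he with rfl | rfl | rfl | rfl <;> assumption

theorem tri_ne (hH : Sparse H) {a b c : V} (h : ({a, b, c} : Finset V) ∈ H) :
    a ≠ b ∧ a ≠ c ∧ b ≠ c := by
  have h3 := hH.1 _ h
  refine ⟨?_, ?_, ?_⟩
  · rintro rfl
    rw [insert_eq_of_mem (by simp)] at h3
    have := Finset.card_le_two (a := a) (b := c)
    omega
  · rintro rfl
    rw [insert_eq_of_mem (by simp)] at h3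
    have := Finset.card_le_two (a := b) (b := a)
    omega
  · rintro rfl
    rw [pair_eq_singleton] at h3
    have := Finset.card_le_two (a := a) (b := b)
    omega

theorem third (hH : Sparse H) {a b : V} (h : Sh H a b) : ∃ c, ({a, b, c} : Finset V) ∈ H := by
  obtain ⟨hab, e, he, ha, hb⟩ := h
  have h3 := hH.1 e he
  have h4 : (e \ {a, b}).card = 1 := by
    rw [card_sdiff_of_subset, h3, card_pair hab]
    intro x hx
    simp only [mem_insert, mem_singleton] at hx
    rcases hx with rfl | rfl <;> assumption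
  obtain ⟨c, hc⟩ := card_eq_one.1 h4
  refine ⟨c, ?_⟩
  have : ({a, b, c} : Finset V) = e := by
    have h5 : e = {a, b} ∪ (e \ {a, b}) := by
      rw [union_sdiff_of_subset]
      intro x hx
      simp only [mem_insert, mem_singleton] at hx
      rcases hx with rfl | rfl <;> assumption
    rw [h5, hc]
    ext x; simp
  rw [this]; exact he

theorem card_seven (a b c d e f g : V) : ({a, b, c, d, e, f, g} : Finset V).card ≤ 7 := by
  have := List.toFinset_card_le [a, b, c, d, e, f, g]
  simpa using this

/-- The basic configuration: four edges on seven vertices. -/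
theorem core (hH : Sparse H) (hn : 7 ≤ Fintype.card V) {s s' w1 w2 c x y : V}
    (h1 : ({s, w1, c} : Finset V) ∈ H) (h2 : ({s', w2, c} : Finset V) ∈ H)
    (h3 : ({s, w2, x} : Finset V) ∈ H) (h4 : ({s', w1, y} : Finset V) ∈ H)
    (hs : s ≠ s') (hw : w1 ≠ w2) : False := by
  obtain ⟨a1, a2, a3⟩ := tri_ne hH h1
  obtain ⟨b1, b2, b3⟩ := tri_ne hH h2
  obtain ⟨c1, c2, c3⟩ := tri_ne hH h3
  obtain ⟨d1, d2, d3⟩ := tri_ne hH h4
  refine four' hH hn h1 h2 h3 h4 ?_ ?_ ?_ ?_ ?_ ?_ (W := {s, s', w1, w2, c, x, y})
    ?_ ?_ ?_ ?_ (card_seven _ _ _ _ _ _ _)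
  · intro h
    have : s ∈ ({s', w2, c} : Finset V) := by rw [← h]; simp
    simp only [mem_insert, mem_singleton] at this
    tauto
  · intro h
    have : w2 ∈ ({s, w1, c} : Finset V) := by rw [h]; simp
    simp only [mem_insert, mem_singleton] at this
    rcases this with h' | h' | h'
    · exact c1 h'.symm
    · exact hw h'.symm
    · exact b3 h'
  · intro h
    have : s' ∈ ({s, w1, c} : Finset V) := by rw [h]; simp
    simp only [mem_insert, mem_singleton] at this
    rcases this with h' | h' | h'
    · exact hs h'.symm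
    · exact d1 h'
    · exact b2 h'
  · intro h
    have : s ∈ ({s', w2, c} : Finset V) := by rw [h]; simp
    simp only [mem_insert, mem_singleton] at this
    tauto
  · intro h
    have : w1 ∈ ({s', w2, c} : Finset V) := by rw [h]; simp
    simp only [mem_insert, mem_singleton] at this
    rcases this with h' | h' | h'
    · exact d1 h'.symm
    · exact hw h'
    · exact a3 h'
  · intro h
    have g1 : s ∈ ({s', w1, y} : Finset V) := by rw [← h]; simp
    have g2 : w2 ∈ ({s', w1, y} : Finset V) := by rw [← h]; simp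
    simp only [mem_insert, mem_singleton] at g1 g2
    rcases g1 with h' | h' | h'
    · exact hs h'
    · exact a1 h'
    · rcases g2 with h'' | h'' | h''
      · exact b1 h''.symm
      · exact hw h''.symm
      · exact c1 (h'.trans h''.symm)
  all_goals
    intro z hz
    simp only [mem_insert, mem_singleton] at hz ⊢
    tauto

/-- A complete bipartite subgraph of the shadow has at most `3 n` pairs. -/
theorem biclique (hH : Sparse H) (hn : 7 ≤ Fintype.card V) {S T : Finset V}
    (hST : ∀ s ∈ S, ∀ t ∈ T, Sh H s t) : S.card * T.card ≤ 3 * Fintype.card V := by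
  classical
  have hex : ∀ p : V × V, ∃ c, p ∈ S ×ˢ T → ({p.1, p.2, c} : Finset V) ∈ H := by
    intro p
    by_cases hp : p ∈ S ×ˢ T
    · rw [mem_product] at hp
      obtain ⟨c, hc⟩ := third hH (hST p.1 hp.1 p.2 hp.2)
      exact ⟨c, fun _ => hc⟩
    · exact ⟨p.1, fun h => absurd h hp⟩
  choose φ hφ using hex
  have hfib : ∀ c ∈ (univ : Finset V), ((S ×ˢ T).filter fun p => φ p = c).card ≤ 3 := by
    intro c _
    by_contra hcon
    push Not at hcon
    set Q := (S ×ˢ T).filter fun p => φ p = c with hQ
    have hmem : ∀ p ∈ Q, p.1 ∈ S ∧ p.2 ∈ T ∧ ({p.1, p.2, c} : Finset V) ∈ H := by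
      intro p hp
      rw [hQ, mem_filter] at hp
      have := hφ p hp.1
      rw [hp.2] at this
      rw [mem_product] at hp
      exact ⟨hp.1.1, hp.1.2, this⟩
    have hA : ∀ p ∈ Q, ∀ q ∈ Q, p.1 ≠ q.1 → p.2 = q.2 := by
      intro p hp q hq hpq
      by_contra hne
      obtain ⟨p1, p2, p3⟩ := hmem p hp
      obtain ⟨q1, q2, q3⟩ := hmem q hq
      obtain ⟨x, hx⟩ := third hH (hST p.1 p1 q.2 q2)
      obtain ⟨y, hy⟩ := third hH (hST q.1 q1 p.2 p2)
      exact core hH hn p3 q3 hx hy hpq hne
    -- the edges
    have hinj : Set.InjOn (fun p : V × V => ({p.1, p.2, c} : Finset V)) (Q : Set (V × V)) := by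
      intro p hp q hq hpq
      obtain ⟨p1, p2, p3⟩ := hmem p hp
      obtain ⟨q1, q2, q3⟩ := hmem q hq
      obtain ⟨a1, a2, a3⟩ := tri_ne hH p3
      have hpq' : ({p.1, p.2, c} : Finset V) = {q.1, q.2, c} := hpq
      have g1 : p.1 ∈ ({q.1, q.2, c} : Finset V) := by rw [← hpq']; simp
      have g2 : p.2 ∈ ({q.1, q.2, c} : Finset V) := by rw [← hpq']; simp
      simp only [mem_insert, mem_singleton] at g1 g2
      have n1 : p.1 ≠ q.2 := fun h => (hST p.1 p1 q.2 q2).1 h
      have n2 : q.1 ≠ p.2 := fun h => (hST q.1 q1 p.2 p2).1 h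
      have k1 : p.1 = q.1 := by tauto
      have k2 : p.2 = q.2 := by
        rcases g2 with h | h | h
        · exact absurd h.symm n2
        · exact h
        · exact absurd h a3
      exact Prod.ext k1 k2
    obtain ⟨R, hRQ, hR⟩ := Finset.exists_subset_card_eq (show 4 ≤ Q.card by omega)
    have himg : (R.image fun p : V × V => ({p.1, p.2, c} : Finset V)).card = 4 := by
      rw [card_image_of_injOn, hR]
      exact hinj.mono (by exact_mod_cast hRQ)
    have himgH : (R.image fun p : V × V => ({p.1, p.2, c} : Finset V)) ⊆ H := by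
      intro e he
      obtain ⟨p, hp, rfl⟩ := mem_image.1 he
      exact (hmem p (hRQ hp)).2.2
    have hR1 : (R.image Prod.fst).card ≤ 4 := by rw [← hR]; exact card_image_le
    have hR2 : (R.image Prod.snd).card ≤ 4 := by rw [← hR]; exact card_image_le
    -- all pairs share a coordinate
    have hdich : (∃ s, ∀ p ∈ Q, p.1 = s) ∨ (∃ w, ∀ p ∈ Q, p.2 = w) := by
      by_contra hno
      push Not at hno
      obtain ⟨h1, h2⟩ := hno
      have hQne : Q.Nonempty := by rw [← card_pos]; omega
      obtain ⟨p, hp⟩ := hQne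
      obtain ⟨q, hq, hq1⟩ := h1 p.1
      obtain ⟨r, hr, hr2⟩ := h2 p.2
      have e1 : q.2 = p.2 := hA q hq p hp hq1
      have e2 : r.1 = p.1 := by
        by_contra h
        exact hr2 (hA r hr p hp h)
      have e3 : r.2 = q.2 := hA r hr q hq (by rw [e2]; exact hq1.symm)
      exact hr2 (e3.trans e1)
    rcases hdich with ⟨s, hs⟩ | ⟨w, hw⟩
    · apply four hH hn himgH (by rw [himg]) (W := insert s (insert c (R.image Prod.snd)))
      · intro e he
        obtain ⟨p, hp, rfl⟩ := mem_image.1 he
        intro z hz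
        simp only [mem_insert, mem_singleton] at hz
        rcases hz with rfl | rfl | rfl
        · rw [hs p (hRQ hp)]; simp
        · simp only [mem_insert, mem_image]
          right; right; exact ⟨p, hp, rfl⟩
        · simp
      · have := card_insert_le s (insert c (R.image Prod.snd))
        have := card_insert_le c (R.image Prod.snd)
        omega
    · apply four hH hn himgH (by rw [himg]) (W := insert w (insert c (R.image Prod.fst)))
      · intro e he
        obtain ⟨p, hp, rfl⟩ := mem_image.1 he
        intro z hz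
        simp only [mem_insert, mem_singleton] at hz
        rcases hz with rfl | rfl | rfl
        · simp only [mem_insert, mem_image]
          right; right; exact ⟨p, hp, rfl⟩
        · rw [hw p (hRQ hp)]; simp
        · simp
      · have := card_insert_le w (insert c (R.image Prod.fst))
        have := card_insert_le c (R.image Prod.fst)
        omega
  have := card_le_mul_card_image_of_maps_to (f := φ) (s := S ×ˢ T) (t := univ)
    (fun _ _ => mem_univ _) 3 hfib
  rw [card_product, card_univ] at this
  exact this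

/-- Every pair of vertices lies in at most three edges. -/
theorem codeg (hH : Sparse H) (hn : 7 ≤ Fintype.card V) {a b : V} (hab : a ≠ b) :
    (H.filter fun e => a ∈ e ∧ b ∈ e).card ≤ 3 := by
  by_contra hcon
  push Not at hcon
  obtain ⟨R, hRQ, hR⟩ := Finset.exists_subset_card_eq
    (show 4 ≤ (H.filter fun e => a ∈ e ∧ b ∈ e).card by omega)
  have hmem : ∀ e ∈ R, e ∈ H ∧ a ∈ e ∧ b ∈ e := fun e he => by
    have := hRQ he
    rwa [mem_filter] at this
  apply four hH hn (T := R) (fun e he => (hmem e he).1) (by omega)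
    (W := {a, b} ∪ R.biUnion fun e => e \ {a, b})
  · intro e he z hz
    by_cases h : z ∈ ({a, b} : Finset V)
    · exact mem_union_left _ h
    · exact mem_union_right _ (mem_biUnion.2 ⟨e, he, mem_sdiff.2 ⟨hz, h⟩⟩)
  · have h1 : (R.biUnion fun e => e \ {a, b}).card ≤ R.card * 1 := by
      apply card_biUnion_le_card_mul
      intro e he
      obtain ⟨h2, h3, h4⟩ := hmem e he
      rw [card_sdiff_of_subset, hH.1 e h2, card_pair hab]
      intro x hx
      simp only [mem_insert, mem_singleton] at hx
      rcases hx with rfl | rfl <;> assumption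
    have h5 := card_union_le ({a, b} : Finset V) (R.biUnion fun e => e \ {a, b})
    have h6 := card_pair hab
    omega

/-- The pairs in the shadow between `A` and `B`. -/
def pairs (H : Finset (Finset V)) (A B : Finset V) : Finset (V × V) :=
  (A ×ˢ B).filter fun p => Sh H p.1 p.2

theorem two_card_le (hH : Sparse H) (hn : 7 ≤ Fintype.card V) :
    2 * H.card ≤ (pairs H univ univ).card := by
  classical
  have h1 : ∑ e ∈ H, (e.offDiag).card ≤ ∑ p ∈ pairs H univ univ, 3 := by
    have h2 : ∑ e ∈ H, (e.offDiag).card =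
        ∑ p ∈ pairs H univ univ, (H.filter fun e => p.1 ∈ e ∧ p.2 ∈ e).card := by
      have h5 : ∀ e ∈ H, (e.offDiag).card =
          ∑ p ∈ pairs H univ univ, if p.1 ∈ e ∧ p.2 ∈ e then 1 else 0 := by
        intro e he
        rw [← sum_filter, ← card_eq_sum_ones]
        congr 1
        ext p
        rw [mem_offDiag, pairs, mem_filter, mem_filter]
        constructor
        · rintro ⟨h1, h2, h3⟩
          exact ⟨⟨by simp, h3, e, he, h1, h2⟩, h1, h2⟩
        · rintro ⟨⟨_, h3, _⟩, h1, h2⟩
          exact ⟨h1, h2, h3⟩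
      rw [sum_congr rfl h5, sum_comm]
      apply sum_congr rfl
      intro p _
      rw [← sum_filter, ← card_eq_sum_ones]
    rw [h2]
    apply sum_le_sum
    intro p hp
    simp only [pairs, mem_filter] at hp
    exact codeg hH hn hp.2.1
  have h3 : ∑ e ∈ H, (e.offDiag).card = ∑ e ∈ H, 6 := by
    apply sum_congr rfl
    intro e he
    rw [offDiag_card, hH.1 e he]
  rw [h3, sum_const, sum_const, smul_eq_mul, smul_eq_mul] at h1
  omega

end Pool.Agent.Helper70.VC74
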