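import Mathlib
import Pool.Agent.Helper70.VC74.Basic

set_option autoImplicit false

open Finset

namespace Pool.Agent.Helper70.VC74

section general
variable {V : Type*} [DecidableEq V]

/-- Greedy hitting sets. -/
theorem hit (B : Finset V) (hB : B.Nonempty) (F : Finset (Finset V)) (η : ℝ) (h1 : η ≤ 1)
    (hF : ∀ D ∈ F, D ⊆ B ∧ η * B.card ≤ D.card) (s : ℕ) :
    ∃ S ⊆ B, S.card ≤ s ∧
      ((F.filter fun D => Disjoint D S).card : ℝ) ≤ (1 - η) ^ s * F.card := by
  induction s with
  | zero =>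
    refine ⟨∅, by simp, by simp, ?_⟩
    simp
  | succ s ih =>
    obtain ⟨S, hSB, hSc, hS⟩ := ih
    set U := F.filter fun D => Disjoint D S with hU
    have hsum : ∑ b ∈ B, ((U.filter fun D => b ∈ D).card : ℝ) = ∑ D ∈ U, (D.card : ℝ) := by
      have : ∑ b ∈ B, (U.filter fun D => b ∈ D).card = ∑ D ∈ U, (B.filter fun b => b ∈ D).card :=
        sum_card_bipartiteAbove_eq_sum_card_bipartiteBelow (fun b D => b ∈ D)
      have h2 : ∀ D ∈ U, (B.filter fun b => b ∈ D).card = D.card := by
        intro D hD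
        congr 1
        ext z
        rw [mem_filter]
        exact ⟨fun h => h.2, fun h => ⟨(hF D (mem_filter.1 hD).1).1 h, h⟩⟩
      rw [sum_congr rfl h2] at this
      exact_mod_cast this
    have hBpos : (0 : ℝ) < B.card := by exact_mod_cast card_pos.2 hB
    have hex : ∃ b ∈ B, η * U.card ≤ ((U.filter fun D => b ∈ D).card : ℝ) := by
      by_contra hcon
      push Not at hcon
      have h3 : ∑ b ∈ B, ((U.filter fun D => b ∈ D).card : ℝ) < ∑ b ∈ B, η * U.card :=
        sum_lt_sum_of_nonempty hB hcon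
      have h4 : ∑ D ∈ U, (η * B.card) ≤ ∑ D ∈ U, (D.card : ℝ) := by
        apply sum_le_sum
        intro D hD
        exact (hF D (mem_filter.1 hD).1).2
      rw [hsum] at h3
      rw [sum_const, nsmul_eq_mul] at h3 h4
      have : (U.card : ℝ) * (η * B.card) = B.card * (η * U.card) := by ring
      linarith
    obtain ⟨b, hb, hbU⟩ := hex
    refine ⟨insert b S, insert_subset hb hSB, ?_, ?_⟩
    · exact (card_insert_le _ _).trans (by omega)
    · have h5 : (F.filter fun D => Disjoint D (insert b S)) ⊆ U.filter fun D => b ∉ D := by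
        intro D hD
        rw [mem_filter, disjoint_insert_right] at hD
        rw [mem_filter, hU, mem_filter]
        exact ⟨⟨hD.1, hD.2.2⟩, hD.2.1⟩
      have h6 : ((F.filter fun D => Disjoint D (insert b S)).card : ℝ) ≤
          ((U.filter fun D => b ∉ D).card : ℝ) := by exact_mod_cast card_le_card h5
      have h7 : ((U.filter fun D => b ∈ D).card : ℝ) + ((U.filter fun D => b ∉ D).card : ℝ) =
          U.card := by
        exact_mod_cast card_filter_add_card_filter_not (s := U) (fun D => b ∈ D)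
      have h8 : ((1 - η) ^ (s + 1) * F.card : ℝ) = (1 - η) * ((1 - η) ^ s * F.card) := by ring
      rw [h8]
      have h9 : (1 - η) * (U.card : ℝ) ≤ (1 - η) * ((1 - η) ^ s * F.card) :=
        mul_le_mul_of_nonneg_left hS (by linarith)
      linarith

/-- Number of traces, from the Sauer-Shelah lemma. -/
theorem traces (A S : Finset V) (N : V → Finset V) (d : ℕ) (x : ℝ) (hx : 0 < x) (hx1 : x ≤ 1)
    (hd : ∀ T ⊆ S, (∀ T' ⊆ T, ∃ a ∈ A, T ∩ N a = T') → T.card ≤ d) :
    ((A.image fun a => N a ∩ S).card : ℝ) * x ^ d ≤ (1 + x) ^ S.card := by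
  set 𝒜 := A.image fun a => N a ∩ S with h𝒜
  have h1 : ∀ T ∈ 𝒜.shatterer, T ⊆ S ∧ T.card ≤ d := by
    intro T hT
    rw [mem_shatterer] at hT
    have hTS : T ⊆ S := by
      obtain ⟨u, hu, hTu⟩ := hT (Subset.refl T)
      obtain ⟨a, _, rfl⟩ := mem_image.1 hu
      rw [← hTu]
      exact inter_subset_right.trans inter_subset_right
    refine ⟨hTS, hd T hTS ?_⟩
    intro T' hT'
    obtain ⟨u, hu, hTu⟩ := hT hT'
    obtain ⟨a, ha, rfl⟩ := mem_image.1 hu
    refine ⟨a, ha, ?_⟩
    rw [← hTu]
    ext z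
    simp only [mem_inter]
    exact ⟨fun h => ⟨h.1, h.2, hTS h.1⟩, fun h => ⟨h.1, h.2.1⟩⟩
  have h2 : (𝒜.card : ℝ) ≤ 𝒜.shatterer.card := by exact_mod_cast card_le_card_shatterer 𝒜
  have h3 : (𝒜.shatterer.card : ℝ) * x ^ d ≤ ∑ T ∈ 𝒜.shatterer, x ^ T.card := by
    rw [← nsmul_eq_mul, ← sum_const]
    apply sum_le_sum
    intro T hT
    exact pow_le_pow_of_le_one hx.le hx1 (h1 T hT).2
  have h4 : ∑ T ∈ 𝒜.shatterer, x ^ T.card ≤ ∑ T ∈ S.powerset, x ^ T.card := by
    apply sum_le_sum_of_subset_of_nonneg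
    · intro T hT
      exact mem_powerset.2 (h1 T hT).1
    · intro T _ _
      positivity
  have h5 : ∑ T ∈ S.powerset, x ^ T.card = (1 + x) ^ S.card := by
    have := Finset.sum_pow_mul_eq_add_pow x (1 : ℝ) S
    simp only [one_pow, mul_one] at this
    rw [this, add_comm]
  have h6 : (𝒜.card : ℝ) * x ^ d ≤ 𝒜.shatterer.card * x ^ d :=
    mul_le_mul_of_nonneg_right h2 (by positivity)
  linarith

end general

variable {V : Type*} [Fintype V] [DecidableEq V] {H : Finset (Finset V)}

/-- Neighbourhood of `a` inside `B`. -/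
def nb (H : Finset (Finset V)) (B : Finset V) (a : V) : Finset V := B.filter fun b => Sh H a b

theorem card_pairs (A B : Finset V) :
    (pairs H A B).card = ∑ a ∈ A, (nb H B a).card := by
  unfold pairs
  rw [card_filter, sum_product]
  apply sum_congr rfl
  intro a _
  rw [nb, card_filter]

theorem master (hH : Sparse H) (hn : 7 ≤ Fintype.card V) (A B : Finset V) (δ : ℝ)
    (hδ0 : 0 < δ) (hδ1 : δ ≤ 1)
    (hp : δ * (Fintype.card V : ℝ) ^ 2 ≤ (pairs H A B).card) (d : ℕ) (x : ℝ) (hx : 0 < x)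
    (hx1 : x ≤ 1)
    (hd : ∀ T ⊆ B, (∀ T' ⊆ T, ∃ a ∈ A, ∀ b ∈ T, (Sh H a b ↔ b ∈ T')) → T.card ≤ d)
    (s : ℕ) (hs : (1 - δ ^ 2 / 48) ^ s * (Fintype.card V : ℝ) ^ 2 < 1) :
    δ ^ 2 * (Fintype.card V : ℝ) / 24 * x ^ d ≤ (1 + x) ^ s := by
  classical
  set n := Fintype.card V with hnn
  have hn0 : (0 : ℝ) < n := by
    have : 0 < n := by omega
    exact_mod_cast this
  set η := δ ^ 2 / 48 with hη
  have hη0 : 0 < η := by positivity
  have hη1 : η ≤ 1 := by
    rw [hη]
    have : δ ^ 2 ≤ 1 := pow_le_one₀ hδ0.le hδ1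
    linarith
  have hcard : ∀ X : Finset V, (X.card : ℝ) ≤ n := fun X => by exact_mod_cast card_le_univ X
  -- vertices of large degree
  set A' := A.filter fun a => δ / 2 * n ≤ ((nb H B a).card : ℝ) with hA'
  have hA'c : δ / 2 * n ≤ (A'.card : ℝ) := by
    have h1 : ((pairs H A B).card : ℝ) = ∑ a ∈ A, ((nb H B a).card : ℝ) := by
      exact_mod_cast card_pairs A B
    have h2 : ∑ a ∈ A, ((nb H B a).card : ℝ) =
        ∑ a ∈ A', ((nb H B a).card : ℝ) +
          ∑ a ∈ A.filter (fun a => ¬ δ / 2 * n ≤ ((nb H B a).card : ℝ)), ((nb H B a).card : ℝ) :=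
      (sum_filter_add_sum_filter_not _ _ _).symm
    have h3 : ∑ a ∈ A', ((nb H B a).card : ℝ) ≤ A'.card * n := by
      rw [← nsmul_eq_mul, ← sum_const]
      exact sum_le_sum fun a _ => hcard _
    have h4 : ∑ a ∈ A.filter (fun a => ¬ δ / 2 * n ≤ ((nb H B a).card : ℝ)),
        ((nb H B a).card : ℝ) ≤ n * (δ / 2 * n) := by
      calc _ ≤ ∑ a ∈ A.filter (fun a => ¬ δ / 2 * n ≤ ((nb H B a).card : ℝ)), (δ / 2 * n) := by
            apply sum_le_sum
            intro a ha
            rw [mem_filter] at ha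
            exact (not_le.1 ha.2).le
        _ ≤ n * (δ / 2 * n) := by
            rw [sum_const, nsmul_eq_mul]
            exact mul_le_mul_of_nonneg_right (hcard _) (by positivity)
    have h5 : δ * n ^ 2 ≤ A'.card * n + n * (δ / 2 * n) := by linarith
    have h6 : δ / 2 * n * n ≤ A'.card * n := by nlinarith
    exact le_of_mul_le_mul_right h6 hn0
  have hBne : B.Nonempty := by
    by_contra hB
    rw [not_nonempty_iff_eq_empty] at hB
    subst hB
    simp only [pairs, product_empty, filter_empty, card_empty, Nat.cast_zero] at hp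
    have : 0 < δ * (n : ℝ) ^ 2 := by positivity
    linarith
  -- the hitting set
  set F := ((A' ×ˢ A').image fun p => symmDiff (nb H B p.1) (nb H B p.2)).filter
    fun D => η * (B.card : ℝ) ≤ (D.card : ℝ) with hF
  have hFc : (F.card : ℝ) ≤ (n : ℝ) ^ 2 := by
    have h1 : F.card ≤ A'.card * A'.card := by
      calc F.card ≤ _ := card_filter_le _ _
        _ ≤ (A' ×ˢ A').card := card_image_le
        _ = _ := card_product _ _
    have h2 : (F.card : ℝ) ≤ A'.card * A'.card := by exact_mod_cast h1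
    have h3 := hcard A'
    nlinarith [Nat.cast_nonneg (α := ℝ) A'.card]
  obtain ⟨S, hSB, hSs, hSF⟩ := hit B hBne F η hη1 (by
    intro D hD
    rw [hF, mem_filter] at hD
    refine ⟨?_, hD.2⟩
    obtain ⟨p, _, rfl⟩ := mem_image.1 hD.1
    intro z hz
    rw [mem_symmDiff] at hz
    rcases hz with h | h
    · exact (mem_filter.1 h.1).1
    · exact (mem_filter.1 h.1).1) s
  have hunhit : F.filter (fun D => Disjoint D S) = ∅ := by
    rw [← card_eq_zero]
    have h1 : ((F.filter fun D => Disjoint D S).card : ℝ) < 1 := by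
      calc _ ≤ (1 - η) ^ s * (F.card : ℝ) := hSF
        _ ≤ (1 - η) ^ s * (n : ℝ) ^ 2 :=
          mul_le_mul_of_nonneg_left hFc (pow_nonneg (by linarith) _)
        _ < 1 := hs
    have : (F.filter fun D => Disjoint D S).card < 1 := by exact_mod_cast h1
    omega
  have hnear : ∀ a ∈ A', ∀ a' ∈ A', nb H B a ∩ S = nb H B a' ∩ S →
      ((symmDiff (nb H B a) (nb H B a')).card : ℝ) ≤ η * n := by
    intro a ha a' ha' htr
    by_contra hcon
    push Not at hcon
    have h1 : symmDiff (nb H B a) (nb H B a') ∈ F := by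
      rw [hF, mem_filter]
      refine ⟨mem_image.2 ⟨(a, a'), mem_product.2 ⟨ha, ha'⟩, rfl⟩, ?_⟩
      have := mul_le_mul_of_nonneg_left (hcard B) hη0.le
      linarith
    have h2 : symmDiff (nb H B a) (nb H B a') ∈ F.filter (fun D => Disjoint D S) := by
      rw [mem_filter]
      refine ⟨h1, ?_⟩
      rw [disjoint_left]
      intro z hz hzS
      rw [mem_symmDiff] at hz
      have h3 : z ∈ nb H B a ∩ S ↔ z ∈ nb H B a' ∩ S := by rw [htr]
      rw [mem_inter, mem_inter] at h3
      tauto
    rw [hunhit] at h2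
    simp at h2
  -- classes are small
  have hclass : ∀ t ∈ A'.image (fun a => nb H B a ∩ S),
      ((A'.filter fun a => nb H B a ∩ S = t).card : ℝ) ≤ 12 / δ := by
    intro t _
    by_contra hcon
    push Not at hcon
    set Q := A'.filter fun a => nb H B a ∩ S = t with hQ
    set m := ⌊12 / δ⌋₊ + 1 with hm
    have hmQ : m ≤ Q.card := by
      have : ⌊12 / δ⌋₊ < Q.card := by
        rw [Nat.floor_lt (by positivity)]
        exact hcon
      omega
    have hm1 : (12 : ℝ) / δ < m := by
      rw [hm]; push_cast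
      exact Nat.lt_floor_add_one _
    have hm2 : (m : ℝ) - 1 ≤ 12 / δ := by
      rw [hm]; push_cast
      have := Nat.floor_le (show (0 : ℝ) ≤ 12 / δ by positivity)
      linarith
    obtain ⟨R, hRQ, hRc⟩ := Finset.exists_subset_card_eq hmQ
    have hRne : R.Nonempty := by rw [← card_pos]; omega
    obtain ⟨a0, ha0⟩ := hRne
    have hmem : ∀ a ∈ R, a ∈ A' ∧ nb H B a ∩ S = t := fun a ha => by
      have := hRQ ha
      rwa [hQ, mem_filter] at this
    set T := (nb H B a0).filter fun b => ∀ a ∈ R, b ∈ nb H B a with hT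
    have hTc : δ / 4 * n ≤ (T.card : ℝ) := by
      have h1 : nb H B a0 ⊆ T ∪ (R.erase a0).biUnion fun a => symmDiff (nb H B a0) (nb H B a) := by
        intro b hb
        by_cases h : ∀ a ∈ R, b ∈ nb H B a
        · exact mem_union_left _ (mem_filter.2 ⟨hb, h⟩)
        · push Not at h
          obtain ⟨a, ha, hba⟩ := h
          refine mem_union_right _ (mem_biUnion.2 ⟨a, mem_erase.2 ⟨?_, ha⟩, ?_⟩)
          · rintro rfl; exact hba hb
          · rw [mem_symmDiff]; exact Or.inl ⟨hb, hba⟩
      have h2 : ((nb H B a0).card : ℝ) ≤ T.card +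
          ∑ a ∈ R.erase a0, ((symmDiff (nb H B a0) (nb H B a)).card : ℝ) := by
        have h3 := (card_le_card h1).trans (card_union_le _ _)
        have h4 := card_biUnion_le (s := R.erase a0)
          (t := fun a => symmDiff (nb H B a0) (nb H B a))
        exact_mod_cast h3.trans (Nat.add_le_add_left h4 _)
      have h5 : ∑ a ∈ R.erase a0, ((symmDiff (nb H B a0) (nb H B a)).card : ℝ) ≤
          (m - 1) * (η * n) := by
        calc _ ≤ ∑ a ∈ R.erase a0, (η * n) := by
              apply sum_le_sum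
              intro a ha
              rw [mem_erase] at ha
              apply hnear a0 (hmem a0 ha0).1 a (hmem a ha.2).1
              rw [(hmem a0 ha0).2, (hmem a ha.2).2]
          _ = (m - 1) * (η * n) := by
              rw [sum_const, nsmul_eq_mul, card_erase_of_mem ha0, hRc,
                Nat.cast_sub (by omega)]
              simp
      have h6 : ((m : ℝ) - 1) * (η * n) ≤ δ / 4 * n := by
        have h7 : ((m : ℝ) - 1) * (η * n) ≤ 12 / δ * (η * n) :=
          mul_le_mul_of_nonneg_right hm2 (by positivity)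
        have h8 : 12 / δ * (η * n) = δ / 4 * n := by
          rw [hη]; field_simp; ring
        linarith
      have h9 : δ / 2 * n ≤ ((nb H B a0).card : ℝ) := by
        have := (hmem a0 ha0).1
        rw [hA', mem_filter] at this
        exact this.2
      linarith
    have hbi := biclique hH hn (S := R) (T := T) (by
      intro a ha b hb
      rw [hT, mem_filter] at hb
      exact (mem_filter.1 (hb.2 a ha)).2)
    rw [hRc] at hbi
    have hbi' : (m : ℝ) * T.card ≤ 3 * n := by exact_mod_cast hbi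
    have h10 : 12 / δ * (δ / 4 * n) = 3 * n := by field_simp; ring
    have h11 : 12 / δ * (δ / 4 * n) < m * (δ / 4 * n) :=
      mul_lt_mul_of_pos_right hm1 (by positivity)
    have h12 : (m : ℝ) * (δ / 4 * n) ≤ m * T.card :=
      mul_le_mul_of_nonneg_left hTc (by positivity)
    linarith
  -- number of traces
  have htr := traces A' S (nb H B) d x hx hx1 (by
    intro T hTS hT
    apply hd T (hTS.trans hSB)
    intro T' hT'
    obtain ⟨a, ha, hTa⟩ := hT T' hT'
    refine ⟨a, (mem_filter.1 ha).1, ?_⟩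
    intro b hb
    rw [← hTa, mem_inter, nb, mem_filter]
    exact ⟨fun h => ⟨hb, hSB (hTS hb), h⟩, fun h => h.2.2⟩)
  have hAc : (A'.card : ℝ) ≤ 12 / δ * (A'.image fun a => nb H B a ∩ S).card := by
    have h1 : A'.card = ∑ t ∈ A'.image (fun a => nb H B a ∩ S),
        (A'.filter fun a => nb H B a ∩ S = t).card :=
      card_eq_sum_card_image _ _
    have h2 : (A'.card : ℝ) = ∑ t ∈ A'.image (fun a => nb H B a ∩ S),
        ((A'.filter fun a => nb H B a ∩ S = t).card : ℝ) := by exact_mod_cast h1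
    rw [h2]
    calc _ ≤ ∑ t ∈ A'.image (fun a => nb H B a ∩ S), 12 / δ := sum_le_sum hclass
      _ = _ := by rw [sum_const, nsmul_eq_mul, mul_comm]
  have h1 : δ ^ 2 * n / 24 ≤ ((A'.image fun a => nb H B a ∩ S).card : ℝ) := by
    have h2 : δ / 2 * n ≤ 12 / δ * (A'.image fun a => nb H B a ∩ S).card := by linarith
    have h3 : δ / 12 * (δ / 2 * n) ≤ δ / 12 * (12 / δ * (A'.image fun a => nb H B a ∩ S).card) :=
      mul_le_mul_of_nonneg_left h2 (by positivity)
    have h4 : δ / 12 * (12 / δ * ((A'.image fun a => nb H B a ∩ S).card : ℝ)) =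
        (A'.image fun a => nb H B a ∩ S).card := by field_simp
    have h5 : δ / 12 * (δ / 2 * n) = δ ^ 2 * n / 24 := by ring
    linarith
  calc δ ^ 2 * (n : ℝ) / 24 * x ^ d ≤
      ((A'.image fun a => nb H B a ∩ S).card : ℝ) * x ^ d :=
        mul_le_mul_of_nonneg_right h1 (by positivity)
    _ ≤ (1 + x) ^ S.card := htr
    _ ≤ (1 + x) ^ s := pow_le_pow_right₀ (by linarith) hSs

end Pool.Agent.Helper70.VC74
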