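import Mathlib
import Pool.Agent.Helper70.VC74.Master

set_option autoImplicit false

open Finset

namespace Pool.Agent.Helper70.VC74

/-- Every subset of `S` is the trace on `S` of the neighbourhood of a vertex of `A`. -/
def Shat {V : Type*} [DecidableEq V] (H : Finset (Finset V)) (A S : Finset V) : Prop :=
  ∀ T ⊆ S, ∃ a ∈ A, ∀ b ∈ S, (Sh H a b ↔ b ∈ T)

lemma step_count {δ : ℝ} (hδ0 : 0 < δ) (hδ1 : δ ≤ 1) {n : ℕ} (hn : 7 ≤ n) {s : ℕ}
    (hs : 96 / δ ^ 2 * Real.log n < s) : (1 - δ ^ 2 / 48) ^ s * (n : ℝ) ^ 2 < 1 := by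
  have hn0 : (0 : ℝ) < n := by
    have : 0 < n := by omega
    exact_mod_cast this
  have hδ2 : δ ^ 2 ≤ 1 := pow_le_one₀ hδ0.le hδ1
  have h1 : (1 - δ ^ 2 / 48) ^ s ≤ Real.exp (-(δ ^ 2 / 48) * s) := by
    have h2 : 1 - δ ^ 2 / 48 ≤ Real.exp (-(δ ^ 2 / 48)) := by
      have := Real.add_one_le_exp (-(δ ^ 2 / 48))
      linarith
    calc (1 - δ ^ 2 / 48) ^ s ≤ Real.exp (-(δ ^ 2 / 48)) ^ s :=
          pow_le_pow_left₀ (by linarith) h2 s
      _ = Real.exp (-(δ ^ 2 / 48) * s) := by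
          rw [← Real.exp_nat_mul]; congr 1; ring
  have h3 : 2 * Real.log n < δ ^ 2 / 48 * s := by
    have h4 : δ ^ 2 / 48 * (96 / δ ^ 2 * Real.log n) < δ ^ 2 / 48 * s :=
      mul_lt_mul_of_pos_left hs (by positivity)
    have h5 : δ ^ 2 / 48 * (96 / δ ^ 2 * Real.log n) = 2 * Real.log n := by
      field_simp; ring
    linarith
  have h6 : (n : ℝ) ^ 2 = Real.exp (2 * Real.log n) := by
    have : (2 : ℝ) * Real.log n = (2 : ℕ) * Real.log n := by push_cast; ring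
    rw [this, Real.exp_nat_mul, Real.exp_log hn0]
  calc (1 - δ ^ 2 / 48) ^ s * (n : ℝ) ^ 2
      ≤ Real.exp (-(δ ^ 2 / 48) * s) * (n : ℝ) ^ 2 :=
        mul_le_mul_of_nonneg_right h1 (by positivity)
    _ = Real.exp (-(δ ^ 2 / 48) * s + 2 * Real.log n) := by rw [h6, ← Real.exp_add]
    _ < 1 := by
        rw [Real.exp_lt_one_iff]
        linarith

theorem log_vc (ε : ℝ) (hε : 0 < ε) : ∃ c : ℝ, 0 < c ∧ ∃ N : ℕ, 7 ≤ N ∧ ∀ n : ℕ, N ≤ n →
    ∀ H : Finset (Finset (Fin n)), Sparse H → ∀ A B : Finset (Fin n),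
      ε * (n : ℝ) ^ 2 ≤ (pairs H A B).card →
      ∃ S ⊆ B, c * Real.log n ≤ S.card ∧ Shat H A S := by
  set δ := min ε 1 with hδ
  have hδ0 : 0 < δ := lt_min hε one_pos
  have hδ1 : δ ≤ 1 := min_le_right _ _
  have hδε : δ ≤ ε := min_le_left _ _
  have hδ2 : δ ^ 2 ≤ 1 := pow_le_one₀ hδ0.le hδ1
  have hδp : 0 < δ ^ 2 := by positivity
  set x := δ ^ 2 / 384 with hx
  have hx0 : 0 < x := by positivity
  have hx1 : x < 1 := by rw [hx]; linarith
  have hlx : Real.log x < 0 := Real.log_neg hx0 hx1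
  set c := -1 / (4 * Real.log x) with hc
  have hc0 : 0 < c := by
    rw [hc]
    exact div_pos_of_neg_of_neg (by norm_num) (by linarith)
  set N := max 7 (⌈Real.exp (2 * (1 + Real.log (24 / δ ^ 2)))⌉₊ + 1) with hN
  refine ⟨c, hc0, N, le_max_left _ _, ?_⟩
  intro n hn H hH A B hp
  have hn7 : 7 ≤ n := (le_max_left _ _).trans hn
  have hn0 : (0 : ℝ) < n := by
    have : 0 < n := by omega
    exact_mod_cast this
  have hnbig : Real.exp (2 * (1 + Real.log (24 / δ ^ 2))) < n := by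
    have h1 := Nat.le_ceil (Real.exp (2 * (1 + Real.log (24 / δ ^ 2))))
    have h2 : ⌈Real.exp (2 * (1 + Real.log (24 / δ ^ 2)))⌉₊ + 1 ≤ n :=
      (le_max_right _ _).trans hn
    have h3 : ((⌈Real.exp (2 * (1 + Real.log (24 / δ ^ 2)))⌉₊ : ℕ) : ℝ) + 1 ≤ n := by
      exact_mod_cast h2
    linarith
  set L := Real.log n with hL
  have hL0 : 0 < L := Real.log_pos (by
    have : (7 : ℝ) ≤ n := by exact_mod_cast hn7
    linarith)
  have hLbig : 2 * (1 + Real.log (24 / δ ^ 2)) < L := by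
    rw [hL, Real.lt_log_iff_exp_lt hn0]; exact hnbig
  by_contra hcon
  push Not at hcon
  have hd : ∀ T ⊆ B, (∀ T' ⊆ T, ∃ a ∈ A, ∀ b ∈ T, (Sh H a b ↔ b ∈ T')) →
      T.card ≤ ⌊c * L⌋₊ := by
    intro T hT hsh
    apply Nat.le_floor
    by_contra h
    push Not at h
    exact hcon T hT h.le hsh
  set d := ⌊c * L⌋₊ with hdd
  set s := ⌊96 / δ ^ 2 * L⌋₊ + 1 with hs
  have hs1 : 96 / δ ^ 2 * L < s := by
    rw [hs]; push_cast
    exact Nat.lt_floor_add_one _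
  have hs2 : (s : ℝ) ≤ 96 / δ ^ 2 * L + 1 := by
    rw [hs]; push_cast
    have := Nat.floor_le (show (0 : ℝ) ≤ 96 / δ ^ 2 * L by positivity)
    linarith
  have hm := master hH (by rw [Fintype.card_fin]; exact hn7) A B δ hδ0 hδ1 (by
    rw [Fintype.card_fin]
    exact (mul_le_mul_of_nonneg_right hδε (by positivity)).trans hp) d x hx0 hx1.le hd s (by
    rw [Fintype.card_fin]
    exact step_count hδ0 hδ1 hn7 hs1)
  rw [Fintype.card_fin] at hm
  -- upper bound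
  have hup : (1 + x) ^ s ≤ Real.exp (L / 4 + 1) := by
    have h1 : 1 + x ≤ Real.exp x := by
      have := Real.add_one_le_exp x
      linarith
    calc (1 + x) ^ s ≤ Real.exp x ^ s := pow_le_pow_left₀ (by linarith) h1 s
      _ = Real.exp (s * x) := by rw [← Real.exp_nat_mul]
      _ ≤ Real.exp (L / 4 + 1) := by
          apply Real.exp_le_exp.2
          have h2 : (s : ℝ) * x ≤ (96 / δ ^ 2 * L + 1) * x :=
            mul_le_mul_of_nonneg_right hs2 hx0.le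
          have h3 : (96 / δ ^ 2 * L + 1) * x = L / 4 + x := by
            rw [hx]; field_simp; ring
          linarith
  -- lower bound
  have hlow : Real.exp (-(L / 4)) ≤ x ^ d := by
    have h1 : x ^ d = Real.exp (d * Real.log x) := by
      rw [Real.exp_nat_mul, Real.exp_log hx0]
    rw [h1]
    apply Real.exp_le_exp.2
    have h2 : (d : ℝ) ≤ c * L := Nat.floor_le (by positivity)
    have h3 : c * L * Real.log x ≤ d * Real.log x :=
      mul_le_mul_of_nonpos_right h2 hlx.le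
    have h4 : c * L * Real.log x = -(L / 4) := by
      rw [hc]
      have : Real.log x ≠ 0 := hlx.ne
      field_simp
    linarith
  have hnL : (n : ℝ) = Real.exp L := (Real.exp_log hn0).symm
  have h1 : δ ^ 2 * (n : ℝ) / 24 * Real.exp (-(L / 4)) ≤ Real.exp (L / 4 + 1) :=
    (mul_le_mul_of_nonneg_left hlow (by positivity)).trans (hm.trans hup)
  have h2 : δ ^ 2 * (n : ℝ) / 24 * Real.exp (-(L / 4)) =
      δ ^ 2 / 24 * Real.exp (3 * L / 4) := by
    rw [hnL]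
    have : Real.exp (3 * L / 4) = Real.exp L * Real.exp (-(L / 4)) := by
      rw [← Real.exp_add]; congr 1; ring
    rw [this]; ring
  have h3 : Real.exp (3 * L / 4) ≤ 24 / δ ^ 2 * Real.exp (L / 4 + 1) := by
    rw [h2] at h1
    rw [div_mul_eq_mul_div, le_div_iff₀ hδp]
    linarith
  have h4 : 24 / δ ^ 2 = Real.exp (Real.log (24 / δ ^ 2)) :=
    (Real.exp_log (by positivity)).symm
  rw [h4, ← Real.exp_add, Real.exp_le_exp] at h3
  linarith

theorem power_vc (d : ℕ) : ∃ C : ℝ, 0 < C ∧ ∀ n : ℕ,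
    ∀ H : Finset (Finset (Fin n)), Sparse H → ∀ A B : Finset (Fin n),
      (∀ S ⊆ B, Shat H A S → S.card ≤ d) →
      ((pairs H A B).card : ℝ) ≤ C * (n : ℝ) ^ (2 - 1 / (2 * (d : ℝ) + 3)) := by
  set C1 : ℝ := 72 * 97 ^ d with hC1
  set C3 : ℝ := C1 * ((d * (2 * d + 3)).factorial : ℝ) with hC3
  have hC1' : 1 ≤ C1 := by
    rw [hC1]
    have : (1 : ℝ) ≤ 97 ^ d := one_le_pow₀ (by norm_num)
    linarith
  have hfac : (1 : ℝ) ≤ ((d * (2 * d + 3)).factorial : ℝ) := by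
    have := Nat.factorial_pos (d * (2 * d + 3))
    exact_mod_cast this
  have hC3' : 1 ≤ C3 := by
    rw [hC3]; nlinarith
  have hC13 : 1 ≤ C1 * C3 := by nlinarith
  refine ⟨49 * (C1 * C3), by positivity, ?_⟩
  intro n H hH A B hd
  set p : ℝ := ((pairs H A B).card : ℝ) with hp
  set k : ℕ := 2 * d + 3 with hk
  have hkR : (2 * (d : ℝ) + 3) = (k : ℝ) := by rw [hk]; push_cast; ring
  rw [hkR]
  have hk0 : (0 : ℝ) < k := by rw [hk]; positivity
  have hk3 : (3 : ℝ) ≤ k := by rw [← hkR]; have : (0 : ℝ) ≤ d := Nat.cast_nonneg d; linarith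
  have hpn : p ≤ (n : ℝ) ^ 2 := by
    have h1 : (pairs H A B).card ≤ n * n := by
      calc (pairs H A B).card ≤ (A ×ˢ B).card := card_filter_le _ _
        _ = A.card * B.card := card_product _ _
        _ ≤ n * n := Nat.mul_le_mul (by simpa using card_le_univ A) (by simpa using card_le_univ B)
    have h2 : p ≤ (n : ℝ) * n := by rw [hp]; exact_mod_cast h1
    linarith [sq (n : ℝ)]
  have hexp : (0 : ℝ) < 2 - 1 / (k : ℝ) := by
    have : 1 / (k : ℝ) ≤ 1 := by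
      rw [div_le_one hk0]; linarith
    linarith
  rcases Nat.eq_zero_or_pos n with hn0 | hn0
  · have : p ≤ 0 := by rw [hn0] at hpn; simpa using hpn
    have h2 : (0 : ℝ) ≤ 49 * (C1 * C3) * (n : ℝ) ^ (2 - 1 / (k : ℝ)) := by positivity
    linarith
  have hnR : (1 : ℝ) ≤ n := by exact_mod_cast hn0
  by_cases hn7 : n < 7
  · have h1 : (n : ℝ) ^ 2 ≤ 49 := by
      have : (n : ℝ) ≤ 7 := by exact_mod_cast hn7.le
      nlinarith
    have h2 : (1 : ℝ) ≤ (n : ℝ) ^ (2 - 1 / (k : ℝ)) := Real.one_le_rpow hnR hexp.le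
    have h3 : (49 : ℝ) * 1 ≤ 49 * (C1 * C3) * (n : ℝ) ^ (2 - 1 / (k : ℝ)) := by
      have : (49 : ℝ) ≤ 49 * (C1 * C3) := by linarith
      exact mul_le_mul this h2 (by norm_num) (by positivity)
    linarith
  push Not at hn7
  have hnpos : (0 : ℝ) < n := by linarith
  rcases (show 0 ≤ p from Nat.cast_nonneg _).eq_or_lt with hp0 | hp0
  · rw [← hp0]; positivity
  set δ := p / (n : ℝ) ^ 2 with hδ
  have hδ0 : 0 < δ := by positivity
  have hδ1 : δ ≤ 1 := by
    rw [hδ, div_le_one (by positivity)]; exact hpn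
  set L := Real.log n with hL
  have hL1 : 1 ≤ L := by
    rw [hL, Real.le_log_iff_exp_le hnpos]
    have := Real.exp_one_lt_d9
    have h7 : (7 : ℝ) ≤ n := by exact_mod_cast hn7
    linarith
  set s := ⌊96 / δ ^ 2 * L⌋₊ + 1 with hs
  have hs0 : (0 : ℝ) < s := by rw [hs]; positivity
  have hs1' : (1 : ℝ) ≤ s := by
    rw [hs]; push_cast
    have : (0 : ℝ) ≤ (⌊96 / δ ^ 2 * L⌋₊ : ℝ) := Nat.cast_nonneg _
    linarith
  have hs1 : 96 / δ ^ 2 * L < s := by
    rw [hs]; push_cast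
    exact Nat.lt_floor_add_one _
  have hs2 : (s : ℝ) ≤ 97 / δ ^ 2 * L := by
    rw [hs]; push_cast
    have h1 := Nat.floor_le (show (0 : ℝ) ≤ 96 / δ ^ 2 * L by positivity)
    have h2 : 1 ≤ 1 / δ ^ 2 := by
      rw [le_div_iff₀ (by positivity)]
      have : δ ^ 2 ≤ 1 := pow_le_one₀ hδ0.le hδ1
      linarith
    have h3 : 1 ≤ 1 / δ ^ 2 * L := by nlinarith
    have h4 : 97 / δ ^ 2 * L = 96 / δ ^ 2 * L + 1 / δ ^ 2 * L := by ring
    linarith
  have hm := master hH (by rw [Fintype.card_fin]; exact hn7) A B δ hδ0 hδ1 (by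
    rw [Fintype.card_fin, hδ, div_mul_cancel₀]
    positivity) d (1 / s) (by positivity) (by rw [div_le_one hs0]; exact hs1') hd s (by
    rw [Fintype.card_fin]
    exact step_count hδ0 hδ1 hn7 hs1)
  rw [Fintype.card_fin] at hm
  have hup : (1 + 1 / (s : ℝ)) ^ s ≤ 3 := by
    have h1 : 1 + 1 / (s : ℝ) ≤ Real.exp (1 / s) := by
      have := Real.add_one_le_exp (1 / (s : ℝ))
      linarith
    calc (1 + 1 / (s : ℝ)) ^ s ≤ Real.exp (1 / s) ^ s := pow_le_pow_left₀ (by positivity) h1 s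
      _ = Real.exp 1 := by
          rw [← Real.exp_nat_mul]; congr 1; field_simp
      _ ≤ 3 := by
          have := Real.exp_one_lt_d9
          linarith
  have h1 : δ ^ 2 * n ≤ 72 * (s : ℝ) ^ d := by
    have h2 := hm.trans hup
    have e : (1 / (s : ℝ)) ^ d = 1 / (s : ℝ) ^ d := by rw [one_div_pow]
    rw [e, mul_one_div, div_le_iff₀ (by positivity)] at h2
    linarith
  have h2 : (s : ℝ) ^ d ≤ 97 ^ d * L ^ d / (δ ^ 2) ^ d := by
    calc (s : ℝ) ^ d ≤ (97 / δ ^ 2 * L) ^ d := pow_le_pow_left₀ hs0.le hs2 d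
      _ = _ := by rw [mul_pow, div_pow]; ring
  have h3 : δ ^ (2 * d + 2) * n ≤ C1 * L ^ d := by
    have h4 : δ ^ 2 * n * (δ ^ 2) ^ d ≤ 72 * (97 ^ d * L ^ d / (δ ^ 2) ^ d) * (δ ^ 2) ^ d :=
      mul_le_mul_of_nonneg_right (h1.trans (mul_le_mul_of_nonneg_left h2 (by norm_num)))
        (by positivity)
    have h5 : 72 * (97 ^ d * L ^ d / (δ ^ 2) ^ d) * (δ ^ 2) ^ d = C1 * L ^ d := by
      rw [hC1]; field_simp
    have h6 : δ ^ 2 * n * (δ ^ 2) ^ d = δ ^ (2 * d + 2) * n := by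
      rw [← pow_mul, pow_add]; ring
    rw [h5, h6] at h4
    exact h4
  have hLn : L ^ (d * (2 * d + 3)) ≤ ((d * (2 * d + 3)).factorial : ℝ) * n := by
    have h4 := Real.pow_div_factorial_le_exp L (by linarith) (d * (2 * d + 3))
    rw [hL, Real.exp_log hnpos, div_le_iff₀ (by positivity)] at h4
    rw [hL]; linarith
  have h4 : (δ * L ^ d) ^ (2 * d + 2) ≤ C3 := by
    have h5 : (δ * L ^ d) ^ (2 * d + 2) * n ≤ C3 * n := by
      calc (δ * L ^ d) ^ (2 * d + 2) * n = δ ^ (2 * d + 2) * n * L ^ (d * (2 * d + 2)) := by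
            rw [mul_pow, ← pow_mul]; ring
        _ ≤ C1 * L ^ d * L ^ (d * (2 * d + 2)) :=
            mul_le_mul_of_nonneg_right h3 (by positivity)
        _ = C1 * L ^ (d * (2 * d + 3)) := by
            rw [mul_assoc, ← pow_add]; congr 2; ring
        _ ≤ C1 * (((d * (2 * d + 3)).factorial : ℝ) * n) :=
            mul_le_mul_of_nonneg_left hLn (by positivity)
        _ = C3 * n := by rw [hC3]; ring
    exact le_of_mul_le_mul_right h5 hnpos
  have h5 : δ * L ^ d ≤ C3 := by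
    by_contra hcon
    push Not at hcon
    have h6 : 1 ≤ δ * L ^ d := hC3'.trans hcon.le
    have h7 : δ * L ^ d ≤ (δ * L ^ d) ^ (2 * d + 2) := by
      calc δ * L ^ d = (δ * L ^ d) ^ 1 := (pow_one _).symm
        _ ≤ (δ * L ^ d) ^ (2 * d + 2) := pow_le_pow_right₀ h6 (by omega)
    linarith
  have h6 : δ ^ k * n ≤ C1 * C3 := by
    calc δ ^ k * n = δ * (δ ^ (2 * d + 2) * n) := by rw [hk, pow_succ δ (2 * d + 2)]; ring
      _ ≤ δ * (C1 * L ^ d) := mul_le_mul_of_nonneg_left h3 hδ0.le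
      _ = C1 * (δ * L ^ d) := by ring
      _ ≤ C1 * C3 := mul_le_mul_of_nonneg_left h5 (by positivity)
  -- conclusion
  have hpδ : p = δ * (n : ℝ) ^ 2 := by rw [hδ]; field_simp
  have h7 : δ ≤ (C1 * C3) ^ (1 / (k : ℝ)) * (n : ℝ) ^ (-(1 / (k : ℝ))) := by
    have h8 : δ ^ k ≤ C1 * C3 / n := by
      rw [le_div_iff₀ hnpos]; exact h6
    have hk1 : k ≠ 0 := by omega
    calc δ = (δ ^ k) ^ (1 / (k : ℝ)) := by
          rw [one_div, Real.pow_rpow_inv_natCast hδ0.le hk1]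
      _ ≤ (C1 * C3 / n) ^ (1 / (k : ℝ)) :=
          Real.rpow_le_rpow (pow_nonneg hδ0.le k) h8 (one_div_pos.2 hk0).le
      _ = (C1 * C3) ^ (1 / (k : ℝ)) * (n : ℝ) ^ (-(1 / (k : ℝ))) := by
          rw [Real.div_rpow (by positivity) hnpos.le, Real.rpow_neg hnpos.le, div_eq_mul_inv]
  have h8 : (C1 * C3) ^ (1 / (k : ℝ)) ≤ C1 * C3 := by
    calc (C1 * C3) ^ (1 / (k : ℝ)) ≤ (C1 * C3) ^ (1 : ℝ) := by
          apply Real.rpow_le_rpow_of_exponent_le hC13
          rw [div_le_one hk0]; linarith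
      _ = C1 * C3 := Real.rpow_one _
  have h9 : (n : ℝ) ^ (2 - 1 / (k : ℝ)) = (n : ℝ) ^ (-(1 / (k : ℝ))) * (n : ℝ) ^ 2 := by
    rw [sub_eq_add_neg, add_comm, Real.rpow_add hnpos]
    congr 1
    exact_mod_cast Real.rpow_natCast (n : ℝ) 2
  rw [hpδ, h9]
  have h10 : δ ≤ 49 * (C1 * C3) * (n : ℝ) ^ (-(1 / (k : ℝ))) := by
    refine h7.trans (mul_le_mul_of_nonneg_right ?_ (by positivity))
    linarith
  calc δ * (n : ℝ) ^ 2 ≤ 49 * (C1 * C3) * (n : ℝ) ^ (-(1 / (k : ℝ))) * (n : ℝ) ^ 2 :=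
        mul_le_mul_of_nonneg_right h10 (by positivity)
    _ = _ := by ring

end Pool.Agent.Helper70.VC74
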